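import Mathlib

/-!
# Constructible sets of points of affine space over an algebraically closed field

The image of a constructible set under the projection which forgets one coordinate is
constructible (Chevalley's theorem, from Mathlib's version for the prime spectrum).
-/

set_option autoImplicit false

namespace Pool.Agent.N890.MH

open PrimeSpectrum MvPolynomial Topology

variable {k : Type*} [Field k]

/-- the prime ideal of the polynomials which vanish at a point -/
noncomputable def pt {τ : Type*} (y : τ → k) : PrimeSpectrum (MvPolynomial τ k) :=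
  ⟨RingHom.ker (eval y), RingHom.ker_isPrime _⟩

/-- constructible sets of points -/
def Cons {τ : Type*} (S : Set (τ → k)) : Prop :=
  ∃ Z : Set (PrimeSpectrum (MvPolynomial τ k)), IsConstructible Z ∧ ∀ y, y ∈ S ↔ pt y ∈ Z

lemma mem_pt {τ : Type*} (y : τ → k) (p : MvPolynomial τ k) :
    p ∈ (pt y).asIdeal ↔ eval y p = 0 := RingHom.mem_ker

lemma Cons.data {τ : Type*} {S : Set (τ → k)} (h : Cons S) :
    ∃ D : ConstructibleSetData (MvPolynomial τ k), ∀ y, y ∈ S ↔
      ∃ C ∈ D, (∀ i, eval y (C.g i) = 0) ∧ eval y C.f ≠ 0 := by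
  obtain ⟨Z, hZ, hS⟩ := h
  obtain ⟨D, rfl⟩ := exists_constructibleSetData_iff.mpr hZ
  refine ⟨D, fun y => ?_⟩
  rw [hS]
  simp only [ConstructibleSetData.toSet, BasicConstructibleSetData.toSet, Set.mem_iUnion,
    Set.mem_sdiff, mem_zeroLocus, Set.singleton_subset_iff, SetLike.mem_coe, exists_prop,
    Set.range_subset_iff]
  rfl

lemma mem_toSet {τ : Type*} (D : ConstructibleSetData (MvPolynomial τ k)) (y : τ → k) :
    pt y ∈ D.toSet ↔ ∃ C ∈ D, (∀ i, eval y (C.g i) = 0) ∧ eval y C.f ≠ 0 := by
  simp only [ConstructibleSetData.toSet, BasicConstructibleSetData.toSet, Set.mem_iUnion,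
    Set.mem_sdiff, mem_zeroLocus, Set.singleton_subset_iff, SetLike.mem_coe, exists_prop,
    Set.range_subset_iff]
  rfl

lemma cons_of_data {τ : Type*} (D : ConstructibleSetData (MvPolynomial τ k)) (S : Set (τ → k))
    (h : ∀ y, y ∈ S ↔ ∃ C ∈ D, (∀ i, eval y (C.g i) = 0) ∧ eval y C.f ≠ 0) : Cons S :=
  ⟨D.toSet, D.isConstructible_toSet, fun y => by rw [h, mem_toSet]⟩

lemma cons_zero {τ : Type*} (p : MvPolynomial τ k) : Cons {y : τ → k | eval y p = 0} :=
  cons_of_data {⟨1, 1, fun _ => p⟩} _ fun y => by simp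

lemma Cons.compl {τ : Type*} {S : Set (τ → k)} (h : Cons S) : Cons Sᶜ := by
  obtain ⟨Z, hZ, hS⟩ := h
  exact ⟨Zᶜ, isConstructible_compl.mpr hZ, fun y => by
    rw [Set.mem_compl_iff, Set.mem_compl_iff, hS]⟩

lemma Cons.inter {τ : Type*} {S T : Set (τ → k)} (h : Cons S) (h' : Cons T) : Cons (S ∩ T) := by
  obtain ⟨Z, hZ, hS⟩ := h
  obtain ⟨W, hW, hT⟩ := h'
  exact ⟨Z ∩ W, hZ.inter hW, fun y => by rw [Set.mem_inter_iff, Set.mem_inter_iff, hS, hT]⟩

lemma Cons.union {τ : Type*} {S T : Set (τ → k)} (h : Cons S) (h' : Cons T) : Cons (S ∪ T) := by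
  obtain ⟨Z, hZ, hS⟩ := h
  obtain ⟨W, hW, hT⟩ := h'
  exact ⟨Z ∪ W, hZ.union hW, fun y => by rw [Set.mem_union, Set.mem_union, hS, hT]⟩

lemma cons_iUnion {τ : Type*} {J : Type*} [Finite J] {S : J → Set (τ → k)}
    (h : ∀ j, Cons (S j)) : Cons (⋃ j, S j) := by
  choose Z hZ hS using h
  exact ⟨⋃ j, Z j, IsConstructible.iUnion hZ, fun y => by simp [hS]⟩

lemma cons_iInter {τ : Type*} {J : Type*} [Finite J] {S : J → Set (τ → k)}
    (h : ∀ j, Cons (S j)) : Cons (⋂ j, S j) := by
  choose Z hZ hS using h
  exact ⟨⋂ j, Z j, IsConstructible.iInter hZ, fun y => by simp [hS]⟩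

/-- preimages under polynomial maps -/
lemma Cons.preimage {τ τ' : Type*} {S : Set (τ → k)} (h : Cons S)
    (P : τ → MvPolynomial τ' k) : Cons {z : τ' → k | (fun i => eval z (P i)) ∈ S} := by
  obtain ⟨D, hD⟩ := h.data
  refine cons_of_data (D.map (aeval P : MvPolynomial τ k →ₐ[k] MvPolynomial τ' k).toRingHom) _
    fun y => ?_
  have key : ∀ p : MvPolynomial τ k, eval y (aeval P p) = eval (fun i => eval y (P i)) p := by
    intro p
    have h1 : eval y (aeval P p) = aeval y (aeval P p) := rfl
    rw [h1, comp_aeval_apply]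
    rfl
  rw [Set.mem_ofPred_eq, hD]
  simp only [ConstructibleSetData.map, Finset.mem_image, exists_exists_and_eq_and,
    BasicConstructibleSetData.map_f, BasicConstructibleSetData.map_g,
    BasicConstructibleSetData.map_n, Function.comp_apply]
  refine exists_congr fun C => and_congr_right fun _ => ?_
  show _ ↔ (∀ i, eval y (aeval P (C.g i)) = 0) ∧ eval y (aeval P C.f) ≠ 0
  simp only [key]

/-- the point with the coordinate `x` added -/
def cns {τ : Type*} (x : k) (y : τ → k) : Option τ → k := fun o => o.elim x y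

/-- `p` as a polynomial in the coordinate `none`, at the point `y` -/
noncomputable def spec {τ : Type*} (y : τ → k) (p : MvPolynomial (Option τ) k) : Polynomial k :=
  ((optionEquivLeft k τ) p).map (eval y)

lemma eval_spec {τ : Type*} (y : τ → k) (p : MvPolynomial (Option τ) k) (x : k) :
    (spec y p).eval x = eval (cns x y) p := by
  induction p using MvPolynomial.induction_on with
  | C a => simp [spec]
  | add p q hp hq => simp only [spec, map_add, Polynomial.map_add, Polynomial.eval_add] at *; rw [hp, hq]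
  | mul_X p i hp =>
    have e : spec y (p * X i) = spec y p * spec y (X i) := by simp [spec]
    rw [e, Polynomial.eval_mul, hp, map_mul]
    congr 1
    cases i with
    | none => simp [spec, cns]
    | some i => simp [spec, cns]

/-- a prime ideal of `k[X]` with a nonzero element is the ideal of a point -/
lemma prime_point [IsAlgClosed k] (q : Ideal (Polynomial k)) [hq : q.IsPrime] (hq0 : q ≠ ⊥) :
    ∃ x : k, ∀ p : Polynomial k, p ∈ q ↔ p.eval x = 0 := by
  have hg := Submodule.IsPrincipal.prime_generator_of_isPrime q hq0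
  set h := Submodule.IsPrincipal.generator q with hh
  have hirr : Irreducible h := hg.irreducible
  obtain ⟨x, hx⟩ := IsAlgClosed.exists_root h (Polynomial.degree_pos_of_irreducible hirr).ne'
  have hhq : h ∈ q := Submodule.IsPrincipal.generator_mem q
  obtain ⟨s, hs⟩ := Polynomial.dvd_iff_isRoot.mpr hx
  have hsu : IsUnit s := by
    rcases hirr.isUnit_or_isUnit hs with h1 | h1
    · exact absurd h1 (Polynomial.not_isUnit_X_sub_C x)
    · exact h1
  have hX : Polynomial.X - Polynomial.C x ∈ q := by
    have h1 : (Polynomial.X - Polynomial.C x) * s ∈ q := hs ▸ hhq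
    exact (hq.mem_or_mem h1).resolve_right fun h2 => hq.ne_top (Ideal.eq_top_of_isUnit_mem _ h2 hsu)
  refine ⟨x, fun p => ⟨fun hp => ?_, fun hp => ?_⟩⟩
  · by_contra hne
    have h1 : Polynomial.X - Polynomial.C x ∣ p - Polynomial.C (p.eval x) := by
      rw [Polynomial.dvd_iff_isRoot]; simp
    have h2 : p - Polynomial.C (p.eval x) ∈ q := Ideal.mem_of_dvd q h1 hX
    have h3 : Polynomial.C (p.eval x) ∈ q := by
      have := q.sub_mem hp h2
      rwa [sub_sub_cancel] at this
    exact hq.ne_top (Ideal.eq_top_of_isUnit_mem _ h3 (Polynomial.isUnit_C.mpr (Ne.isUnit hne)))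
  · exact Ideal.mem_of_dvd q (Polynomial.dvd_iff_isRoot.mpr hp) hX

/-- the projection of a constructible set (Chevalley's theorem), in terms of the prime spectrum -/
lemma exists_fibre [IsAlgClosed k] {τ : Type*}
    (D : ConstructibleSetData (MvPolynomial (Option τ) k)) :
    ∃ T : ConstructibleSetData (MvPolynomial τ k), ∀ y : τ → k,
      (∃ x : k, pt (cns x y) ∈ D.toSet) ↔ pt y ∈ T.toSet := by
  let e : MvPolynomial (Option τ) k →+* Polynomial (MvPolynomial τ k) :=
    (optionEquivLeft k τ).toRingEquiv.toRingHom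
  obtain ⟨T, hT, -⟩ := ChevalleyThm.chevalley_polynomialC (R := MvPolynomial τ k) ⊤ trivial
    (D.map e) (fun _ _ _ _ => trivial)
  refine ⟨T, fun y => ?_⟩
  rw [← hT, ConstructibleSetData.toSet_map]
  let ψ : Polynomial (MvPolynomial τ k) →+* Polynomial k := Polynomial.mapRingHom (eval y)
  have hψe : ∀ p, ψ (e p) = spec y p := fun p => rfl
  constructor
  · rintro ⟨x, hx⟩
    let φ : Polynomial (MvPolynomial τ k) →+* k := (Polynomial.evalRingHom x).comp ψ
    refine ⟨⟨RingHom.ker φ, RingHom.ker_isPrime _⟩, ?_, ?_⟩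
    · rw [Set.mem_preimage]
      convert hx using 1
      ext p
      rw [comap_asIdeal, Ideal.mem_comap, RingHom.mem_ker, mem_pt, ← eval_spec]
      rfl
    · ext p
      rw [comap_asIdeal, Ideal.mem_comap, RingHom.mem_ker, mem_pt]
      show Polynomial.eval x (Polynomial.map (eval y) (Polynomial.C p)) = 0 ↔ _
      rw [Polynomial.map_C, Polynomial.eval_C]
  · rintro ⟨q, hq, hqy⟩
    have hker : RingHom.ker ψ ≤ q.asIdeal := by
      intro p hp
      have h1 : ∀ n, eval y (p.coeff n) = 0 := by
        intro n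
        have := congrArg (fun r => Polynomial.coeff r n) (RingHom.mem_ker.mp hp)
        simpa [ψ] using this
      rw [← Polynomial.sum_C_mul_X_pow_eq p]
      refine Ideal.sum_mem _ fun n _ => Ideal.mul_mem_right _ _ ?_
      have h2 : p.coeff n ∈ (comap Polynomial.C q).asIdeal := by
        rw [hqy, mem_pt]; exact h1 n
      exact h2
    have hsurj : Function.Surjective ψ := by
      apply Polynomial.map_surjective
      intro a
      exact ⟨C a, by simp⟩
    set q' : Ideal (Polynomial k) := q.asIdeal.map ψ with hq'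
    have hprime : q'.IsPrime := Ideal.map_isPrime_of_surjective hsurj hker
    have hmem : ∀ p, ψ p ∈ q' ↔ p ∈ q.asIdeal := by
      intro p
      have := Ideal.comap_map_of_surjective' ψ hsurj q.asIdeal
      rw [← Ideal.mem_comap, hq', this, sup_eq_left.mpr hker]
    rw [Set.mem_preimage] at hq
    simp only [ConstructibleSetData.toSet, Set.mem_iUnion, exists_prop] at hq
    obtain ⟨C0, hC0, hq⟩ := hq
    have hg : ∀ i, spec y (C0.g i) ∈ q' := by
      intro i
      rw [← hψe, hmem]
      have := hq.1
      rw [mem_zeroLocus, Set.range_subset_iff] at this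
      exact this i
    have hf : spec y C0.f ∉ q' := by
      rw [← hψe, hmem]
      have := hq.2
      rw [mem_zeroLocus, Set.singleton_subset_iff] at this
      exact this
    have goal : ∀ x : k, (∀ i, (spec y (C0.g i)).eval x = 0) → (spec y C0.f).eval x ≠ 0 →
        ∃ x : k, pt (cns x y) ∈ D.toSet := by
      intro x h1 h2
      refine ⟨x, (mem_toSet _ _).mpr ⟨C0, hC0, fun i => ?_, ?_⟩⟩
      · rw [← eval_spec]; exact h1 i
      · rw [← eval_spec]; exact h2
    by_cases hq0 : q' = ⊥
    · have hf0 : spec y C0.f ≠ 0 := by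
        intro h
        exact hf (h ▸ q'.zero_mem)
      have : Infinite k := IsAlgClosed.instInfinite
      obtain ⟨x, hx⟩ := Polynomial.exists_eval_ne_zero_of_natDegree_lt_card (spec y C0.f) hf0
        ((Cardinal.natCast_lt_aleph0).trans_le (Cardinal.aleph0_le_mk k))
      refine goal x (fun i => ?_) hx
      have := hg i
      rw [hq0, Ideal.mem_bot] at this
      rw [this, Polynomial.eval_zero]
    · obtain ⟨x, hx⟩ := prime_point q' hq0
      exact goal x (fun i => (hx _).mp (hg i)) fun h => hf ((hx _).mpr h)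

/-- **Chevalley's theorem** for sets of points, forgetting one coordinate. -/
theorem Cons.proj [IsAlgClosed k] {τ : Type*} {S : Set (Option τ → k)} (h : Cons S) :
    Cons {y : τ → k | ∃ x : k, cns x y ∈ S} := by
  obtain ⟨D, hD⟩ := h.data
  obtain ⟨T, hT⟩ := exists_fibre D
  refine ⟨T.toSet, T.isConstructible_toSet, fun y => ?_⟩
  rw [← hT]
  refine exists_congr fun x => ?_
  rw [mem_toSet]
  exact hD _

end Pool.Agent.N890.MH
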