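import Mathlib
import Pool.Agent.Helper259.AbsHt
import Pool.Agent.N890.MH.Cons

/-!
# Points of small height in the fibres of constructible families
-/

set_option autoImplicit false

namespace Pool.Agent.N890.MH

open PrimeSpectrum MvPolynomial Topology Pool.Agent.Helper259.AbsHt Pool.Agent.Helper259.HtPoly

/-- the affine height of a vector of algebraic numbers -/
noncomputable def H {τ : Type*} [Finite τ] (y : τ → Qbar) : ℝ := absLogHeight (cns 1 y)

lemma H_nonneg {τ : Type*} [Finite τ] (y : τ → Qbar) : 0 ≤ H y := absLogHeight_nonneg _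

lemma H_comp_le {τ τ' : Type*} [Finite τ] [Finite τ'] (f : τ' → τ) (y : τ → Qbar) :
    H (y ∘ f) ≤ H y := by
  have := absLogHeight_comp_le (Option.map f) (cns 1 y)
  have e : cns 1 y ∘ Option.map f = cns 1 (y ∘ f) := by
    funext o
    cases o <;> rfl
  rwa [e] at this

lemma le_H {τ : Type*} [Finite τ] (y : τ → Qbar) : absLogHeight y ≤ H y :=
  absLogHeight_comp_le some (cns 1 y)

lemma H_le_of_eq_one {τ : Type*} [Finite τ] (y : τ → Qbar) (i : τ) (h : y i = 1) :
    H y ≤ absLogHeight y := by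
  have := absLogHeight_comp_le (fun o : Option τ => o.elim i id) y
  have e : y ∘ (fun o : Option τ => o.elim i id) = cns 1 y := by
    funext o
    cases o
    · exact h
    · rfl
  rwa [e] at this

lemma H_cns_le {τ : Type*} [Finite τ] (x : Qbar) (y : τ → Qbar) :
    H (cns x y) ≤ H y + absLogHeight ![1, x] := by
  have h1 : cns 1 y ≠ 0 := by
    intro h
    exact one_ne_zero (congrFun h none)
  have h2 : (![1, x] : Fin 2 → Qbar) ≠ 0 := by
    intro h
    exact one_ne_zero (congrFun h 0)
  rw [H, H, ← absLogHeight_segre h1 h2]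
  have := absLogHeight_comp_le (fun o : Option (Option τ) => (match o with
    | none => (none, 0)
    | some none => (none, 1)
    | some (some i) => (some i, 0) : Option τ × Fin 2))
    (fun a : Option τ × Fin 2 => cns 1 y a.1 * (![1, x] : Fin 2 → Qbar) a.2)
  convert this using 2
  funext o
  rcases o with _ | _ | i
  · simp [cns]
  · simp [cns]
  · simp [cns]

/-- homogenization with the variable `none` -/
noncomputable def hmg {τ : Type*} (D : ℕ) (p : MvPolynomial τ Qbar) : MvPolynomial (Option τ) Qbar :=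
  ∑ s ∈ p.support, X none ^ (D - s.degree) * rename some (monomial s (coeff s p))

lemma hmg_homog {τ : Type*} {D : ℕ} {p : MvPolynomial τ Qbar} (h : p.totalDegree ≤ D) :
    (hmg D p).IsHomogeneous D := by
  refine IsHomogeneous.sum _ _ _ fun s hs => ?_
  have hd : s.degree ≤ D := by
    refine le_trans ?_ h
    have := le_totalDegree hs
    rwa [Finsupp.sum, ← Finsupp.degree_apply] at this
  have h1 := (isHomogeneous_X_pow (R := Qbar) (none : Option τ) (D - s.degree)).mul
    ((isHomogeneous_monomial (coeff s p) (rfl : s.degree = s.degree)).rename_isHomogeneous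
      (f := some))
  rwa [Nat.sub_add_cancel hd] at h1

lemma eval_hmg {τ : Type*} (D : ℕ) (p : MvPolynomial τ Qbar) (y : τ → Qbar) :
    eval (cns 1 y) (hmg D p) = eval y p := by
  conv_rhs => rw [p.as_sum]
  rw [hmg, map_sum, map_sum]
  refine Finset.sum_congr rfl fun s _ => ?_
  rw [map_mul, map_pow, eval_X, eval_rename]
  have : (cns 1 y : Option τ → Qbar) none = 1 := rfl
  rw [this, one_pow, one_mul]
  rfl

/-- heights of the values of finitely many polynomials -/
lemma height_values {τ J : Type*} [Fintype τ] [Finite J] (c : J → MvPolynomial τ Qbar) :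
    ∃ A : ℝ, 0 ≤ A ∧ ∀ y : τ → Qbar, absLogHeight (fun j => eval y (c j)) ≤ A * (1 + H y) := by
  obtain ⟨D, hD⟩ : ∃ D : ℕ, ∀ j, (c j).totalDegree ≤ D := by
    obtain ⟨D, hD⟩ := (Set.finite_range fun j => (c j).totalDegree).bddAbove
    exact ⟨D, fun j => hD ⟨j, rfl⟩⟩
  obtain ⟨C, hC⟩ := absLogHeight_eval D (fun j => hmg D (c j)) fun j => hmg_homog (hD j)
  refine ⟨|C| + D, by positivity, fun y => ?_⟩
  have h1 := hC (cns 1 y)
  simp only [eval_hmg] at h1
  have h2 := H_nonneg y
  have h3 : absLogHeight (cns 1 y) = H y := rfl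
  rw [h3] at h1
  nlinarith [le_abs_self C, abs_nonneg C, mul_nonneg (abs_nonneg C) h2]

lemma spec_coeff {τ : Type*} (y : τ → Qbar) (p : MvPolynomial (Option τ) Qbar) (n : ℕ) :
    (spec y p).coeff n = eval y ((optionEquivLeft Qbar τ p).coeff n) := by
  rw [spec, Polynomial.coeff_map]

open Classical in
/-- a point of small height in the fibre, one variable, basic sets -/
lemma choice_basic {τ : Type*} [Fintype τ] (C : BasicConstructibleSetData (MvPolynomial (Option τ) Qbar)) :
    ∃ A : ℝ, 0 ≤ A ∧ ∀ (y : τ → Qbar) (x : Qbar),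
      ((∀ i, eval (cns x y) (C.g i) = 0) ∧ eval (cns x y) C.f ≠ 0) →
      ∃ x' : Qbar, ((∀ i, eval (cns x' y) (C.g i) = 0) ∧ eval (cns x' y) C.f ≠ 0) ∧
        absLogHeight ![1, x'] ≤ A * (1 + H y) := by
  obtain ⟨n, hn⟩ : ∃ n : ℕ, ∀ i, (optionEquivLeft Qbar τ (C.g i)).natDegree ≤ n := by
    obtain ⟨D, hD⟩ := (Set.finite_range fun j =>
      (optionEquivLeft Qbar τ (C.g j)).natDegree).bddAbove
    exact ⟨D, fun j => hD ⟨j, rfl⟩⟩
  obtain ⟨A1, hA1⟩ := absLogHeight_root n
  choose A2 hA20 hA2 using fun i => height_values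
    (fun j : Fin (n + 1) => (optionEquivLeft Qbar τ (C.g i)).coeff j)
  set N := (optionEquivLeft Qbar τ C.f).natDegree with hN
  set A3 : ℝ := ∑ m ∈ Finset.range (N + 1), absLogHeight ![1, (m : Qbar)] with hA3
  have hA30 : 0 ≤ A3 := Finset.sum_nonneg fun m _ => absLogHeight_nonneg _
  have hA2s : 0 ≤ ∑ i, A2 i := Finset.sum_nonneg fun i _ => hA20 i
  refine ⟨|A1| + ∑ i, A2 i + A3, by positivity, fun y x hx => ?_⟩
  have hH := H_nonneg y
  by_cases hz : ∀ i, spec y (C.g i) = 0
  · have hf : spec y C.f ≠ 0 := by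
      intro h
      apply hx.2
      rw [← eval_spec, h, Polynomial.eval_zero]
    have hdeg : (spec y C.f).natDegree ≤ N := Polynomial.natDegree_map_le
    obtain ⟨m, hm, hm'⟩ : ∃ m ∈ Finset.range (N + 1), (spec y C.f).eval (m : Qbar) ≠ 0 := by
      by_contra hcon
      push Not at hcon
      have h1 : (Finset.range (N + 1)).image (fun m : ℕ => (m : Qbar)) ⊆
          (spec y C.f).roots.toFinset := by
        intro z hz
        obtain ⟨m, hm, rfl⟩ := Finset.mem_image.mp hz
        rw [Multiset.mem_toFinset, Polynomial.mem_roots hf]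
        exact hcon m hm
      have h2 := Finset.card_le_card h1
      rw [Finset.card_image_of_injective _ Nat.cast_injective, Finset.card_range] at h2
      have h3 := Multiset.toFinset_card_le (spec y C.f).roots
      have h4 := Polynomial.card_roots' (spec y C.f)
      omega
    refine ⟨m, ⟨fun i => by rw [← eval_spec, hz i, Polynomial.eval_zero], by
      rw [← eval_spec]; exact hm'⟩, ?_⟩
    have h1 : absLogHeight ![1, (m : Qbar)] ≤ A3 :=
      Finset.single_le_sum (f := fun m : ℕ => absLogHeight ![1, (m : Qbar)])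
        (fun m _ => absLogHeight_nonneg _) hm
    nlinarith [abs_nonneg A1, mul_nonneg (abs_nonneg A1) hH, mul_nonneg hA2s hH,
      mul_nonneg hA30 hH]
  · push Not at hz
    obtain ⟨i, hi⟩ := hz
    refine ⟨x, hx, ?_⟩
    have h1 := hA1 (spec y (C.g i)) x hi ((Polynomial.natDegree_map_le).trans (hn i)) (by
      rw [eval_spec]; exact hx.1 i)
    have h2 : cv n (spec y (C.g i)) = fun j : Fin (n + 1) =>
        eval y ((optionEquivLeft Qbar τ (C.g i)).coeff j) := by
      funext j
      rw [cv, spec_coeff]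
    rw [h2] at h1
    have h3 := hA2 i y
    have h4 : A2 i ≤ ∑ i, A2 i :=
      Finset.single_le_sum (f := fun i => A2 i) (fun i _ => hA20 i) (Finset.mem_univ i)
    nlinarith [le_abs_self A1, abs_nonneg A1, mul_nonneg (abs_nonneg A1) hH,
      mul_nonneg hA2s hH, mul_nonneg hA30 hH, mul_le_mul_of_nonneg_right h4 hH]

/-- a point of small height in the fibre, one variable -/
lemma choice_one {τ : Type*} [Fintype τ] {S : Set (Option τ → Qbar)} (hS : Cons S) :
    ∃ A : ℝ, 0 ≤ A ∧ ∀ (y : τ → Qbar) (x : Qbar), cns x y ∈ S →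
      ∃ x' : Qbar, cns x' y ∈ S ∧ absLogHeight ![1, x'] ≤ A * (1 + H y) := by
  obtain ⟨D, hD⟩ := hS.data
  choose A hA0 hA using fun C : BasicConstructibleSetData (MvPolynomial (Option τ) Qbar) =>
    choice_basic C
  have hs : 0 ≤ ∑ C ∈ D, A C := Finset.sum_nonneg fun C _ => hA0 C
  refine ⟨∑ C ∈ D, A C, hs, fun y x hx => ?_⟩
  obtain ⟨C, hC, h⟩ := (hD _).mp hx
  obtain ⟨x', hx', hle⟩ := hA C y x h
  refine ⟨x', (hD _).mpr ⟨C, hC, hx'⟩, hle.trans ?_⟩
  have h4 : A C ≤ ∑ C ∈ D, A C := Finset.single_le_sum (fun i _ => hA0 i) hC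
  have := H_nonneg y
  nlinarith

/-- **Points of small height in the fibres of a constructible family**: the coordinates in `ι` can
be replaced such that their heights are bounded in terms of the heights of the coordinates in `σ`. -/
theorem choice {σ : Type} [Fintype σ] (ι : Type) [Fintype ι] :
    ∀ S : Set (ι ⊕ σ → Qbar), Cons S → ∃ A : ℝ, 0 ≤ A ∧ ∀ z ∈ S, ∃ z' ∈ S,
      (∀ i, z' (Sum.inr i) = z (Sum.inr i)) ∧ H z' ≤ A * (1 + H (fun i => z (Sum.inr i))) := by
  classical
  refine Fintype.induction_empty_option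
    (P := fun (ι : Type) _ => ∀ S : Set (ι ⊕ σ → Qbar), Cons S → ∃ A : ℝ, 0 ≤ A ∧ ∀ z ∈ S, ∃ z' ∈ S,
      (∀ i, z' (Sum.inr i) = z (Sum.inr i)) ∧ H z' ≤ A * (1 + H (fun i => z (Sum.inr i))))
    ?_ ?_ ?_ ι
  · intro α β _ e ih S hS
    have : Fintype α := Fintype.ofEquiv β e.symm
    obtain ⟨A, hA0, hA⟩ := ih {w | (fun i => eval w (X (R := Qbar) (Sum.map e.symm id i))) ∈ S}
      (hS.preimage _)
    refine ⟨A, hA0, fun z hz => ?_⟩
    have hz' : (fun i => z (Sum.map e id i)) ∈
        {w : α ⊕ σ → Qbar | (fun i => eval w (X (R := Qbar) (Sum.map e.symm id i))) ∈ S} := by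
      rw [Set.mem_ofPred_eq]
      convert hz using 1
      funext i
      rw [eval_X]
      rcases i with i | i <;> simp
    obtain ⟨w, hw, hw2, hw3⟩ := hA _ hz'
    refine ⟨fun i => w (Sum.map e.symm id i), ?_, fun i => ?_, ?_⟩
    · rw [Set.mem_ofPred_eq] at hw
      convert hw using 1
      funext i
      rw [eval_X]
    · simpa using hw2 i
    · refine le_trans (H_comp_le (Sum.map e.symm id) w) ?_
      simpa using hw3
  · intro S _
    refine ⟨1, zero_le_one, fun z hz => ⟨z, hz, fun _ => rfl, ?_⟩⟩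
    have := H_comp_le (fun i : PEmpty ⊕ σ => (i.elim PEmpty.elim id : σ)) (fun i => z (Sum.inr i))
    have e : (fun i => z (Sum.inr i)) ∘ (fun i : PEmpty ⊕ σ => (i.elim PEmpty.elim id : σ)) = z := by
      funext i
      rcases i with i | i
      · exact i.elim
      · rfl
    rw [e] at this
    linarith
  · intro ι _ ih S hS
    let e : Option ι ⊕ σ → Option (ι ⊕ σ) := fun i => i.elim (Option.map Sum.inl) (some ∘ Sum.inr)
    let e' : Option (ι ⊕ σ) → Option ι ⊕ σ := fun i => i.elim (Sum.inl none)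
      (Sum.map some id)
    have ee' : ∀ i, e' (e i) = i := by
      rintro ((_ | i) | i) <;> rfl
    have e'e : ∀ i, e (e' i) = i := by
      rintro (_ | (i | i)) <;> rfl
    let S' : Set (Option (ι ⊕ σ) → Qbar) := {w | (fun i => eval w (X (R := Qbar) (e i))) ∈ S}
    have hS' : Cons S' := hS.preimage _
    obtain ⟨A1, hA10, hA1⟩ := choice_one hS'
    obtain ⟨A2, hA20, hA2⟩ := ih _ hS'.proj
    refine ⟨A2 + A1 * (1 + A2), by positivity, fun z hz => ?_⟩
    have hzz : cns (z (Sum.inl none)) (fun i => z (Sum.map some id i)) ∈ S' := by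
      show (fun i => eval _ (X (R := Qbar) (e i))) ∈ S
      convert hz using 1
      funext i
      rw [eval_X]
      rcases i with (_ | i) | i <;> rfl
    obtain ⟨y, ⟨x0, hy0⟩, hy2, hy3⟩ := hA2 (fun i => z (Sum.map some id i)) ⟨_, hzz⟩
    obtain ⟨x, hx, hxh⟩ := hA1 y x0 hy0
    refine ⟨fun i => cns x y (e i), ?_, fun i => ?_, ?_⟩
    · have : (fun i => eval (cns x y) (X (R := Qbar) (e i))) ∈ S := hx
      simpa only [eval_X] using this
    · have := hy2 i
      simpa [e, cns] using this
    · have h1 : H (fun i => cns x y (e i)) ≤ H (cns x y) := H_comp_le e (cns x y)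
      have h2 := H_cns_le x y
      have h3 : H y ≤ A2 * (1 + H fun i => z (Sum.inr i)) := by simpa using hy3
      have h4 := H_nonneg y
      have h5 := H_nonneg fun i => z (Sum.inr i)
      have h6 : A1 * (1 + H y) ≤ A1 * (1 + A2 * (1 + H fun i => z (Sum.inr i))) := by
        apply mul_le_mul_of_nonneg_left _ hA10
        linarith
      nlinarith [mul_nonneg hA10 h5, mul_nonneg (mul_nonneg hA10 hA20) h5]

end Pool.Agent.N890.MH
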