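import Mathlib
import Pool.Agent.Helper259.HtDef

/-!
# Quasi-projective sets of points, morphisms, heights

Points are points over the field `Qbar` of algebraic numbers.
-/

set_option autoImplicit false

namespace Pool.Agent.N890.MH

open MvPolynomial Pool.Agent.Helper259.AbsHt

/-- The points of the projective space whose homogeneous coordinates are indexed by `ι`. -/
abbrev PSp (ι : Type) : Type := Projectivization Qbar (ι → Qbar)

/-- The absolute logarithmic Weil height of a point of a projective space. -/
noncomputable def ht {ι : Type} [Finite ι] (P : PSp ι) : ℝ := absLogHeight P.rep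

/-- Zariski open sets: the sets of the points at which some form of a given family of forms does
not vanish. -/
def IsZariskiOpen {ι : Type} (U : Set (PSp ι)) : Prop :=
  ∃ T : Set (MvPolynomial ι Qbar), (∀ F ∈ T, ∃ e : ℕ, F.IsHomogeneous e) ∧
    U = {P : PSp ι | ∃ F ∈ T, eval P.rep F ≠ 0}

/-- Quasi-projective (locally closed) sets: the intersections of an open and a closed set. -/
def IsQuasiProjective {ι : Type} (X : Set (PSp ι)) : Prop :=
  ∃ U V : Set (PSp ι), IsZariskiOpen U ∧ IsZariskiOpen V ∧ X = U \ V

/-- The map `π` on the set `X` of points of a projective space, with values in a projective space,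
is a morphism: every point of `X` has an open neighbourhood such that on the points of `X` in it
`π` is given by forms of the same degree, which do not vanish simultaneously there. -/
def IsMorphism {ι κ : Type} (X : Set (PSp ι)) (π : X → PSp κ) : Prop :=
  ∀ P : X, ∃ U : Set (PSp ι), IsZariskiOpen U ∧ (P : PSp ι) ∈ U ∧
    ∃ (e : ℕ) (F : κ → MvPolynomial ι Qbar), (∀ j, (F j).IsHomogeneous e) ∧
      ∀ Q : X, (Q : PSp ι) ∈ U → ∃ h : (fun j => eval (Q : PSp ι).rep (F j)) ≠ 0,
        π Q = Projectivization.mk Qbar (fun j => eval (Q : PSp ι).rep (F j)) h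

/-- The map `i` on `X` is a projective embedding: it is a morphism, its image is quasi-projective,
and it has an inverse map on its image which is a morphism. -/
def IsProjEmbedding {ι κ : Type} (X : Set (PSp ι)) (i : X → PSp κ) : Prop :=
  IsMorphism X i ∧ IsQuasiProjective (Set.range i) ∧
    ∃ j : Set.range i → PSp ι, IsMorphism (Set.range i) j ∧
      ∀ P : X, j ⟨i P, Set.mem_range_self P⟩ = P

/-- The function `h` on `X` is an ample height: up to a bounded function and a positive multiple it
is the pullback of the absolute logarithmic Weil height under a projective embedding. -/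
def IsAmpleHeight {ι : Type} (X : Set (PSp ι)) (h : X → ℝ) : Prop :=
  ∃ (κ : Type) (_ : Fintype κ) (i : X → PSp κ), IsProjEmbedding X i ∧
    ∃ a C : ℝ, 0 < a ∧ ∀ P : X, |h P - a * ht (i P)| ≤ C

/-- `A ≍ B`: there are constants `c₁, c₂ > 0` and `c₃, c₄` with `c₁ A - c₃ ≤ B ≤ c₂ A + c₄`. -/
def Comparable {S : Type*} (A B : S → ℝ) : Prop :=
  ∃ c₁ c₂ c₃ c₄ : ℝ, 0 < c₁ ∧ 0 < c₂ ∧ ∀ x, c₁ * A x - c₃ ≤ B x ∧ B x ≤ c₂ * A x + c₄

end Pool.Agent.N890.MH
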