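import Mathlib
import Pool.Agent.N890.MH.Choice
import Pool.Agent.N890.MH.Defs

/-!
# Points of small height in the fibres of a morphism
-/

set_option autoImplicit false

namespace Pool.Agent.N890.MH

open MvPolynomial Pool.Agent.Helper259.AbsHt

section basics

variable {ι κ : Type}

lemma rep_mk {v : ι → Qbar} (h : v ≠ 0) :
    ∃ a : Qbar, a ≠ 0 ∧ (Projectivization.mk Qbar v h).rep = a • v := by
  obtain ⟨a, ha⟩ := Projectivization.exists_smul_eq_mk_rep Qbar v h
  exact ⟨a, a.ne_zero, ha.symm⟩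

lemma eval_smul {F : MvPolynomial ι Qbar} {e : ℕ} (hF : F.IsHomogeneous e) (a : Qbar)
    (v : ι → Qbar) : eval (a • v) F = a ^ e * eval v F := by
  rw [eval_eq, eval_eq, Finset.mul_sum]
  refine Finset.sum_congr rfl fun s hs => ?_
  have h1 : ∑ i ∈ s.support, s i = e := by
    have := hF (mem_support_iff.mp hs)
    rw [← this, ← Finsupp.degree_apply, Finsupp.degree_eq_weight_one]
    rfl
  have h2 : ∏ i ∈ s.support, (a • v) i ^ s i = a ^ e * ∏ i ∈ s.support, v i ^ s i := by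
    rw [← h1, ← Finset.prod_pow_eq_pow_sum, ← Finset.prod_mul_distrib]
    refine Finset.prod_congr rfl fun i _ => ?_
    rw [Pi.smul_apply, smul_eq_mul, mul_pow]
  rw [h2]
  ring

lemma eval_rep_ne {F : MvPolynomial ι Qbar} {e : ℕ} (hF : F.IsHomogeneous e) {v : ι → Qbar}
    (h : v ≠ 0) : eval (Projectivization.mk Qbar v h).rep F ≠ 0 ↔ eval v F ≠ 0 := by
  obtain ⟨a, ha, e⟩ := rep_mk h
  rw [e, eval_smul hF]
  simp [ha]

lemma ht_mk [Finite ι] {v : ι → Qbar} (h : v ≠ 0) :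
    ht (Projectivization.mk Qbar v h) = absLogHeight v := by
  obtain ⟨a, ha, e⟩ := rep_mk h
  rw [ht, e, absLogHeight_smul _ ha]

lemma ht_nonneg [Finite ι] (P : PSp ι) : 0 ≤ ht P := absLogHeight_nonneg _

/-- the vectors of homogeneous coordinates of the points of a set -/
def cone (X : Set (PSp ι)) : Set (ι → Qbar) :=
  {v | ∃ h : v ≠ 0, Projectivization.mk Qbar v h ∈ X}

/-- finitely many of the forms suffice -/
lemma finite_forms [Finite ι] (T : Set (MvPolynomial ι Qbar)) :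
    ∃ T' : Finset (MvPolynomial ι Qbar), (T' : Set _) ⊆ T ∧
      ∀ v : ι → Qbar, (∃ F ∈ T, eval v F ≠ 0) → ∃ F ∈ T', eval v F ≠ 0 := by
  have hfg : (Submodule.span (MvPolynomial ι Qbar) T).FG := IsNoetherian.noetherian _
  obtain ⟨T', hT', hspan⟩ := (Submodule.fg_span_iff_fg_span_finset_subset T).mp hfg
  refine ⟨T', hT', fun v => ?_⟩
  rintro ⟨F, hF, hne⟩
  by_contra hcon
  push Not at hcon
  have h1 : Submodule.span (MvPolynomial ι Qbar) (T' : Set (MvPolynomial ι Qbar)) ≤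
      (RingHom.ker (eval v) : Ideal (MvPolynomial ι Qbar)) := by
    refine Submodule.span_le.mpr fun G hG => ?_
    exact RingHom.mem_ker.mpr (hcon G hG)
  rw [← hspan] at h1
  exact hne (RingHom.mem_ker.mp (h1 (Submodule.subset_span hF)))

lemma cons_ne (p : MvPolynomial ι Qbar) : Cons {v : ι → Qbar | eval v p ≠ 0} := (cons_zero p).compl

lemma cons_nonzero [Finite ι] : Cons {v : ι → Qbar | v ≠ 0} := by
  have h : {v : ι → Qbar | v ≠ 0} = ⋃ i, {v : ι → Qbar | eval v (X i) ≠ 0} := by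
    ext v
    simp only [Set.mem_ofPred_eq, Set.mem_iUnion, eval_X]
    exact Function.ne_iff
  rw [h]
  exact cons_iUnion fun i => cons_ne _

lemma cons_cone_open [Finite ι] {U : Set (PSp ι)} (hU : IsZariskiOpen U) : Cons (cone U) := by
  obtain ⟨T, hT, rfl⟩ := hU
  obtain ⟨T', hT', hfin⟩ := finite_forms T
  have h : cone {P : PSp ι | ∃ F ∈ T, eval P.rep F ≠ 0} =
      {v : ι → Qbar | v ≠ 0} ∩ ⋃ F : T', {v : ι → Qbar | eval v (F : MvPolynomial ι Qbar) ≠ 0} := by
    ext v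
    simp only [cone, Set.mem_ofPred_eq, Set.mem_inter_iff, Set.mem_iUnion, Subtype.exists,
      exists_prop]
    constructor
    · rintro ⟨h, F, hF, hne⟩
      obtain ⟨e, he⟩ := hT F hF
      exact ⟨h, hfin v ⟨F, hF, (eval_rep_ne he h).mp hne⟩⟩
    · rintro ⟨h, F, hF, hne⟩
      obtain ⟨e, he⟩ := hT F (hT' hF)
      exact ⟨h, F, hT' hF, (eval_rep_ne he h).mpr hne⟩
  rw [h]
  exact cons_nonzero.inter (cons_iUnion fun F => cons_ne _)

lemma cons_cone [Finite ι] {X : Set (PSp ι)} (hX : IsQuasiProjective X) : Cons (cone X) := by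
  obtain ⟨U, V, hU, hV, rfl⟩ := hX
  have h : cone (U \ V) = cone U ∩ (cone V)ᶜ := by
    ext v
    simp only [cone, Set.mem_ofPred_eq, Set.mem_inter_iff, Set.mem_compl_iff, Set.mem_sdiff,
      not_exists]
    constructor
    · rintro ⟨h, h1, h2⟩
      exact ⟨⟨h, h1⟩, fun _ => h2⟩
    · rintro ⟨⟨h, h1⟩, h2⟩
      exact ⟨h, h1, h2 h⟩
  rw [h]
  exact (cons_cone_open hU).inter (cons_cone_open hV).compl

end basics

section morphism

variable {ι κ : Type} [Fintype ι] [Fintype κ]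

/-- a morphism is given by finitely many tuples of forms -/
lemma finite_cover {X : Set (PSp ι)} {π : X → PSp κ} (hπ : IsMorphism X π) :
    ∃ (J : Type) (_ : Fintype J) (a : J → MvPolynomial ι Qbar) (b e : J → ℕ)
      (F : J → κ → MvPolynomial ι Qbar), (∀ j, (a j).IsHomogeneous (b j)) ∧
      (∀ j i, (F j i).IsHomogeneous (e j)) ∧
      (∀ P : X, ∃ j, eval (P : PSp ι).rep (a j) ≠ 0) ∧
      ∀ j (Q : X), eval (Q : PSp ι).rep (a j) ≠ 0 →
        ∃ h : (fun i => eval (Q : PSp ι).rep (F j i)) ≠ 0,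
          π Q = Projectivization.mk Qbar (fun i => eval (Q : PSp ι).rep (F j i)) h := by
  let T : Set (MvPolynomial ι Qbar) := {a | (∃ b, a.IsHomogeneous b) ∧
    ∃ (e : ℕ) (F : κ → MvPolynomial ι Qbar), (∀ i, (F i).IsHomogeneous e) ∧
      ∀ Q : X, eval (Q : PSp ι).rep a ≠ 0 → ∃ h : (fun i => eval (Q : PSp ι).rep (F i)) ≠ 0,
        π Q = Projectivization.mk Qbar (fun i => eval (Q : PSp ι).rep (F i)) h}
  obtain ⟨T', hT', hfin⟩ := finite_forms T
  choose hb he using fun j : T' => hT' j.2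
  choose b hb using hb
  choose e F he hF using he
  refine ⟨T', inferInstance, fun j => j, b, e, F, hb, he, fun P => ?_, hF⟩
  obtain ⟨U, ⟨S, hS, rfl⟩, hPU, e, F, hF, hUF⟩ := hπ P
  obtain ⟨a, haS, ha⟩ := hPU
  obtain ⟨a', ha', hne⟩ := hfin (P : PSp ι).rep ⟨a, ⟨hS a haS, e, F, hF, fun Q hQ =>
    hUF Q ⟨a, haS, hQ⟩⟩, ha⟩
  exact ⟨⟨a', ha'⟩, hne⟩

/-- heights do not increase much under a morphism -/
theorem height_le {X : Set (PSp ι)} {π : X → PSp κ} (hπ : IsMorphism X π) :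
    ∃ A : ℝ, 0 ≤ A ∧ ∀ P : X, ht (π P) ≤ A * (1 + ht (P : PSp ι)) := by
  obtain ⟨J, _, a, b, e, F, ha, hF, hcov, hval⟩ := finite_cover hπ
  choose C hC using fun j => absLogHeight_eval (e j) (F j) (hF j)
  have hs : ∀ j, |C j| + e j ≤ ∑ j, (|C j| + e j) := fun j =>
    Finset.single_le_sum (f := fun j => |C j| + (e j : ℝ)) (fun i _ => by positivity)
      (Finset.mem_univ j)
  refine ⟨∑ j, (|C j| + e j), Finset.sum_nonneg fun j _ => by positivity, fun P => ?_⟩
  obtain ⟨j, hj⟩ := hcov P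
  obtain ⟨h, hP⟩ := hval j P hj
  rw [hP, ht_mk]
  have h1 := hC j (P : PSp ι).rep
  have h2 : absLogHeight (P : PSp ι).rep = ht (P : PSp ι) := rfl
  have h3 := ht_nonneg (P : PSp ι)
  rw [h2] at h1
  have h4 : (|C j| + e j) * (1 + ht (P : PSp ι)) ≤
      (∑ j, (|C j| + e j)) * (1 + ht (P : PSp ι)) :=
    mul_le_mul_of_nonneg_right (hs j) (by linarith)
  nlinarith [le_abs_self (C j), mul_nonneg (abs_nonneg (C j)) h3, (Nat.cast_nonneg (e j) : (0 : ℝ) ≤ e j)]

/-- **Points of small height in the fibres of a morphism.** -/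
theorem small_point {X : Set (PSp ι)} (hX : Cons (cone X)) {π : X → PSp κ}
    (hπ : IsMorphism X π) :
    ∃ A : ℝ, 0 ≤ A ∧ ∀ P : X, ∃ Q : X, π Q = π P ∧ ht (Q : PSp ι) ≤ A * (1 + ht (π P)) := by
  classical
  obtain ⟨J, _, a, b, e, F, ha, hF, hcov, hval⟩ := finite_cover hπ
  -- the graph in the charts
  let S : J × ι × κ → Set (ι ⊕ κ → Qbar) := fun t =>
    {z | (fun i => z (Sum.inl i)) ∈ cone X} ∩ ({z | eval (fun i => z (Sum.inl i)) (a t.1) ≠ 0} ∩
      ({z | z (Sum.inr t.2.2) = 1} ∩ ⋂ s : κ × κ, {z | eval (fun i => z (Sum.inl i)) (F t.1 s.1) *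
        z (Sum.inr s.2) = eval (fun i => z (Sum.inl i)) (F t.1 s.2) * z (Sum.inr s.1)}))
  have hren : ∀ (p : MvPolynomial ι Qbar) (z : ι ⊕ κ → Qbar),
      eval (fun i => z (Sum.inl i)) p = eval z (rename Sum.inl p) := by
    intro p z
    rw [eval_rename]
    rfl
  have hS : ∀ t, Cons (S t) := by
    intro t
    refine Cons.inter ?_ (Cons.inter ?_ (Cons.inter ?_ (cons_iInter fun s => ?_)))
    · have := hX.preimage (fun i => (MvPolynomial.X (Sum.inl i) : MvPolynomial (ι ⊕ κ) Qbar))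
      simpa only [eval_X] using this
    · simp only [hren]
      exact cons_ne _
    · have := cons_zero (MvPolynomial.X (Sum.inr t.2.2) - 1 : MvPolynomial (ι ⊕ κ) Qbar)
      simpa only [map_sub, eval_X, map_one, sub_eq_zero] using this
    · have := cons_zero (rename Sum.inl (F t.1 s.1) * MvPolynomial.X (Sum.inr s.2) -
        rename Sum.inl (F t.1 s.2) * MvPolynomial.X (Sum.inr s.1) : MvPolynomial (ι ⊕ κ) Qbar)
      simpa only [map_sub, map_mul, eval_X, sub_eq_zero, hren] using this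
  choose A hA0 hA using fun t => choice ι (S t) (hS t)
  have hs : ∀ t, A t ≤ ∑ t, A t := fun t =>
    Finset.single_le_sum (f := fun t => A t) (fun i _ => hA0 i) (Finset.mem_univ t)
  refine ⟨∑ t, A t, Finset.sum_nonneg fun t _ => hA0 t, fun P => ?_⟩
  obtain ⟨j, hj⟩ := hcov P
  obtain ⟨h, hP⟩ := hval j P hj
  obtain ⟨i0, hi0⟩ : ∃ i, (P : PSp ι).rep i ≠ 0 := Function.ne_iff.mp (P : PSp ι).rep_nonzero
  obtain ⟨l, hl⟩ : ∃ l, eval (P : PSp ι).rep (F j l) ≠ 0 := Function.ne_iff.mp h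
  set v : ι → Qbar := (P : PSp ι).rep with hv
  set w : κ → Qbar := fun s => eval v (F j s) with hw
  let z : ι ⊕ κ → Qbar := Sum.elim v (fun s => (w l)⁻¹ * w s)
  have hzS : z ∈ S (j, i0, l) := by
    refine ⟨⟨(P : PSp ι).rep_nonzero, ?_⟩, hj, ?_, ?_⟩
    · have : Projectivization.mk Qbar (P : PSp ι).rep (P : PSp ι).rep_nonzero = P :=
        Projectivization.mk_rep _
      show Projectivization.mk Qbar (P : PSp ι).rep _ ∈ X
      rw [this]
      exact P.2
    · show (w l)⁻¹ * w l = 1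
      exact inv_mul_cancel₀ hl
    · rw [Set.mem_iInter]
      intro s
      show w s.1 * ((w l)⁻¹ * w s.2) = w s.2 * ((w l)⁻¹ * w s.1)
      ring
  obtain ⟨z', hz', hinr, hH⟩ := hA _ z hzS
  obtain ⟨⟨hv0, hvX⟩, ha', hone, hcross⟩ := hz'
  set v' : ι → Qbar := fun i => z' (Sum.inl i) with hv'
  let Q : X := ⟨Projectivization.mk Qbar v' hv0, hvX⟩
  have haQ : eval (Q : PSp ι).rep (a j) ≠ 0 := (eval_rep_ne (ha j) hv0).mpr ha'
  obtain ⟨hQ, hπQ⟩ := hval j Q haQ
  refine ⟨Q, ?_, ?_⟩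
  · rw [hπQ, hP, Projectivization.mk_eq_mk_iff']
    obtain ⟨c, hc, hcv⟩ := rep_mk hv0
    have hrep : ∀ s, eval (Q : PSp ι).rep (F j s) = c ^ e j * eval v' (F j s) := by
      intro s
      show eval (Projectivization.mk Qbar v' hv0).rep (F j s) = _
      rw [hcv, eval_smul (hF j s)]
    refine ⟨c ^ e j * eval v' (F j l) * (w l)⁻¹, ?_⟩
    funext s
    rw [Pi.smul_apply, smul_eq_mul, hrep]
    have h1 := Set.mem_iInter.mp hcross (s, l)
    have h2 : eval v' (F j s) * z' (Sum.inr l) = eval v' (F j l) * z' (Sum.inr s) := h1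
    have h3 : z' (Sum.inr l) = 1 := hone
    have h4 : z' (Sum.inr s) = (w l)⁻¹ * w s := hinr s
    rw [h3, mul_one, h4] at h2
    rw [h2]
    ring
  · have h1 : ht (Q : PSp ι) ≤ H z' := by
      show ht (Projectivization.mk Qbar v' hv0) ≤ _
      rw [ht_mk]
      exact (absLogHeight_comp_le Sum.inl z').trans (le_H z')
    have h2 : H (fun s => z (Sum.inr s)) ≤ ht (π P) := by
      refine (H_le_of_eq_one _ l (inv_mul_cancel₀ hl)).trans (le_of_eq ?_)
      rw [hP, ht_mk]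
      exact absLogHeight_smul w (inv_ne_zero hl)
    have h3 := hs (j, i0, l)
    have h4 := H_nonneg fun s => z (Sum.inr s)
    calc ht (Q : PSp ι) ≤ A (j, i0, l) * (1 + H fun s => z (Sum.inr s)) := h1.trans hH
      _ ≤ (∑ t, A t) * (1 + H fun s => z (Sum.inr s)) :=
          mul_le_mul_of_nonneg_right h3 (by linarith)
      _ ≤ _ := mul_le_mul_of_nonneg_left (by linarith) (Finset.sum_nonneg fun t _ => hA0 t)

end morphism

end Pool.Agent.N890.MH
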