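import Mathlib
import Pool.Agent.N890.MH.Geo

/-!
# Comparison of the height of the image with the minimal height in the fibre
-/

set_option autoImplicit false

namespace Pool.Agent.N890.MH

open MvPolynomial Pool.Agent.Helper259.AbsHt

variable {ι κ : Type} [Fintype ι] [Fintype κ]

/-- ample heights are comparable with the height of the given embedding -/
lemma IsAmpleHeight.bounds {X : Set (PSp ι)} {h : X → ℝ} (hh : IsAmpleHeight X h) :
    ∃ b c b' c' : ℝ, 0 < b ∧ 0 < b' ∧ (∀ P : X, ht (P : PSp ι) ≤ b * h P + c) ∧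
      ∀ P : X, h P ≤ b' * ht (P : PSp ι) + c' := by
  obtain ⟨κ', hκ', i, ⟨hi, hq, j, hj, hji⟩, a, C, ha, hC⟩ := hh
  obtain ⟨A, hA0, hA⟩ := height_le hi
  obtain ⟨A', hA'0, hA'⟩ := height_le hj
  have ha' : 0 < a⁻¹ := inv_pos.mpr ha
  refine ⟨(A' + 1) * a⁻¹, (A' + 1) * (1 + a⁻¹ * C), a * (A + 1), a * (A + 1) + C, by positivity,
    by positivity, fun P => ?_, fun P => ?_⟩
  · have h1 := (abs_le.mp (hC P)).1
    have h2 := hA' ⟨i P, Set.mem_range_self P⟩
    rw [hji] at h2
    have h3 := ht_nonneg (i P)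
    have h5 : a * ht (i P) ≤ h P + C := by linarith
    have h6 : ht (i P) ≤ a⁻¹ * (h P + C) := by
      have := mul_le_mul_of_nonneg_left h5 ha'.le
      rwa [inv_mul_cancel_left₀ ha.ne'] at this
    have h7 : ht (P : PSp ι) ≤ (A' + 1) * (1 + ht (i P)) := by nlinarith
    calc ht (P : PSp ι) ≤ (A' + 1) * (1 + ht (i P)) := h7
      _ ≤ (A' + 1) * (1 + a⁻¹ * (h P + C)) :=
          mul_le_mul_of_nonneg_left (by linarith) (by linarith)
      _ = _ := by ring
  · have h1 := (abs_le.mp (hC P)).2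
    have h2 := hA P
    have h3 := ht_nonneg (P : PSp ι)
    have h4 : ht (i P) ≤ (A + 1) * (1 + ht (P : PSp ι)) := by nlinarith
    have h5 := mul_le_mul_of_nonneg_left h4 ha.le
    calc h P ≤ a * ht (i P) + C := by linarith
      _ ≤ a * ((A + 1) * (1 + ht (P : PSp ι))) + C := by linarith
      _ = _ := by ring

/-- The height of the image of a point under a morphism whose fibres are the orbits of a group is
comparable with the minimum of the heights of the points of the orbit. -/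
theorem comparable {X : Set (PSp ι)} (hX : Cons (cone X)) {Y : Set (PSp κ)} (π : X → Y)
    (hπ : IsMorphism X (fun P => (π P : PSp κ))) {G : Type*} [Nonempty G] (act : G → X → X)
    (horb : ∀ P Q : X, π P = π Q ↔ ∃ g : G, act g P = Q)
    {hX' : X → ℝ} {hY' : Y → ℝ} (h₁ : ∃ b c b' c' : ℝ, 0 < b ∧ 0 < b' ∧
      (∀ P : X, ht (P : PSp ι) ≤ b * hX' P + c) ∧ ∀ P : X, hX' P ≤ b' * ht (P : PSp ι) + c')
    (h₂ : ∃ b c b' c' : ℝ, 0 < b ∧ 0 < b' ∧
      (∀ P : Y, ht (P : PSp κ) ≤ b * hY' P + c) ∧ ∀ P : Y, hY' P ≤ b' * ht (P : PSp κ) + c') :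
    Comparable (fun P : X => hY' (π P)) (fun P : X => ⨅ g : G, hX' (act g P)) := by
  obtain ⟨A, hA0, hA⟩ := height_le hπ
  obtain ⟨A₂, hA20, hA2⟩ := small_point hX hπ
  obtain ⟨b, c, b', c', hb, hb', hX1, hX2⟩ := h₁
  obtain ⟨e, f, e', f', he, he', hY1, hY2⟩ := h₂
  have hinv : ∀ (g : G) (P : X), π (act g P) = π P := fun g P => ((horb P _).mpr ⟨g, rfl⟩).symm
  -- lower bound
  set F := e' * (A + 1) * b with hF
  have hFpos : 0 < F := by positivity
  set E := e' * (A + 1) * c + e' * (A + 1) + f' with hE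
  have hlow : ∀ (P : X), hY' (π P) ≤ F * hX' P + E := by
    intro P
    have h1 := hY2 (π P)
    have h2 : ht (π P : PSp κ) ≤ (A + 1) * (1 + ht (P : PSp ι)) := by
      have := hA P
      have := ht_nonneg (P : PSp ι)
      nlinarith
    have h3 := hX1 P
    calc hY' (π P) ≤ e' * ht (π P : PSp κ) + f' := h1
      _ ≤ e' * ((A + 1) * (1 + (b * hX' P + c))) + f' := by
          have : (A + 1) * (1 + ht (P : PSp ι)) ≤ (A + 1) * (1 + (b * hX' P + c)) :=
            mul_le_mul_of_nonneg_left (by linarith) (by linarith)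
          have := mul_le_mul_of_nonneg_left (h2.trans this) he'.le
          linarith
      _ = _ := by rw [hF, hE]; ring
  have hup : ∀ P : X, ∃ g : G, hX' (act g P) ≤
      b' * (A₂ + 1) * e * hY' (π P) + (b' * (A₂ + 1) * (1 + f) + c') := by
    intro P
    obtain ⟨Q, hQ, hle⟩ := hA2 P
    obtain ⟨g, hg⟩ := (horb P Q).mp (Subtype.ext hQ.symm)
    refine ⟨g, ?_⟩
    rw [hg]
    have h1 := hX2 Q
    have h2 := hY1 (π P)
    have h3 : ht (Q : PSp ι) ≤ (A₂ + 1) * (1 + ht (π P : PSp κ)) := by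
      have := ht_nonneg (π P : PSp κ)
      nlinarith
    calc hX' Q ≤ b' * ht (Q : PSp ι) + c' := h1
      _ ≤ b' * ((A₂ + 1) * (1 + (e * hY' (π P) + f))) + c' := by
          have : (A₂ + 1) * (1 + ht (π P : PSp κ)) ≤ (A₂ + 1) * (1 + (e * hY' (π P) + f)) :=
            mul_le_mul_of_nonneg_left (by linarith) (by linarith)
          have := mul_le_mul_of_nonneg_left (h3.trans this) hb'.le
          linarith
      _ = _ := by ring
  have hbdd : ∀ P : X, BddBelow (Set.range fun g : G => hX' (act g P)) := by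
    intro P
    refine ⟨-c / b, ?_⟩
    rintro _ ⟨g, rfl⟩
    have h1 := hX1 (act g P)
    have h2 := ht_nonneg (act g P : PSp ι)
    rw [div_le_iff₀ hb]
    linarith
  refine ⟨F⁻¹, b' * (A₂ + 1) * e, F⁻¹ * E, b' * (A₂ + 1) * (1 + f) + c', inv_pos.mpr hFpos,
    by positivity, fun P => ⟨?_, ?_⟩⟩
  · refine le_ciInf fun g => ?_
    have h1 := hlow (act g P)
    rw [hinv] at h1
    have h2 := mul_le_mul_of_nonneg_left h1 (inv_pos.mpr hFpos).le
    rw [mul_add, inv_mul_cancel_left₀ hFpos.ne'] at h2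
    linarith
  · obtain ⟨g, hg⟩ := hup P
    exact (ciInf_le (hbdd P) g).trans hg

end Pool.Agent.N890.MH
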