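import Mathlib
import Pool.Agent.N890.MH.Defs

/-!
# The space of rational maps of degree `d` and the conjugation action
-/

set_option autoImplicit false

namespace Pool.Agent.N890.MH

open MvPolynomial Pool.Agent.Helper259.AbsHt

/-- The binary form `∑ c(i, j) X_0^j X_1^(d-j)` of degree `d`: for a vector `c` of coefficients these
are the two homogeneous coordinates (`i = 0, 1`) of the map `f`. -/
noncomputable def form {d : ℕ} (c : Fin 2 × Fin (d + 1) → Qbar) (i : Fin 2) :
    MvPolynomial (Fin 2) Qbar :=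
  ∑ j : Fin (d + 1), C (c (i, j)) * (X 0 ^ (j : ℕ) * X 1 ^ (d - j))

/-- The space `Rat_d` of rational maps of degree `d`, a subset of the projective space of dimension
`2 d + 1` of coefficient vectors: the two forms have no common zero except for `0`. -/
def Rat (d : ℕ) : Set (PSp (Fin 2 × Fin (d + 1))) :=
  {f | ∀ x : Fin 2 → Qbar, (∀ i, eval x (form f.rep i) = 0) → x = 0}

/-- The forms of the conjugate `φ⁻¹ ∘ f ∘ φ`, where `f` has the coefficient vector `c` (the adjugate
matrix of `φ` is used, which is a multiple of the inverse). -/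
noncomputable def conjForm {d : ℕ} (φ : Matrix (Fin 2) (Fin 2) Qbar)
    (c : Fin 2 × Fin (d + 1) → Qbar) (i : Fin 2) : MvPolynomial (Fin 2) Qbar :=
  ∑ l, C (φ.adjugate i l) * bind₁ (fun k => ∑ m, C (φ k m) * X m) (form c l)

/-- The coefficient vector of the conjugate. -/
noncomputable def conjVec {d : ℕ} (φ : Matrix (Fin 2) (Fin 2) Qbar)
    (c : Fin 2 × Fin (d + 1) → Qbar) : Fin 2 × Fin (d + 1) → Qbar :=
  fun a => coeff (Finsupp.single 0 (a.2 : ℕ) + Finsupp.single 1 (d - a.2)) (conjForm φ c a.1)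

lemma form_homog {d : ℕ} (c : Fin 2 × Fin (d + 1) → Qbar) (i : Fin 2) :
    (form c i).IsHomogeneous d := by
  refine IsHomogeneous.sum _ _ _ fun j _ => ?_
  have h := (isHomogeneous_X_pow (R := Qbar) (0 : Fin 2) (j : ℕ)).mul
    (isHomogeneous_X_pow (R := Qbar) (1 : Fin 2) (d - j))
  rw [Nat.add_sub_cancel' (Nat.lt_succ_iff.mp j.2)] at h
  exact h.C_mul _

lemma conjForm_homog {d : ℕ} (φ : Matrix (Fin 2) (Fin 2) Qbar)
    (c : Fin 2 × Fin (d + 1) → Qbar) (i : Fin 2) : (conjForm φ c i).IsHomogeneous d := by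
  refine IsHomogeneous.sum _ _ _ fun l _ => IsHomogeneous.C_mul ?_ _
  have h1 : ∀ k, (∑ m, C (φ k m) * X m : MvPolynomial (Fin 2) Qbar).IsHomogeneous 1 := fun k =>
    IsHomogeneous.sum _ _ _ fun m _ => (isHomogeneous_X _ m).C_mul _
  have := (form_homog c l).aeval (fun k => ∑ m, C (φ k m) * X m) h1
  rwa [one_mul] at this

/-- a binary form is determined by its coefficients -/
lemma sum_coeff {d : ℕ} {G : MvPolynomial (Fin 2) Qbar} (hG : G.IsHomogeneous d) :
    ∑ j : Fin (d + 1), C (coeff (Finsupp.single 0 (j : ℕ) + Finsupp.single 1 (d - j)) G) *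
      (X 0 ^ (j : ℕ) * X 1 ^ (d - j)) = G := by
  ext m
  rw [coeff_sum]
  have hmon : ∀ j : Fin (d + 1), (X 0 ^ (j : ℕ) * X 1 ^ (d - j) : MvPolynomial (Fin 2) Qbar) =
      monomial (Finsupp.single 0 (j : ℕ) + Finsupp.single 1 (d - j)) 1 := by
    intro j
    rw [X_pow_eq_monomial, X_pow_eq_monomial, monomial_mul, one_mul]
  simp only [hmon, coeff_C_mul, coeff_monomial]
  by_cases hm : m 0 + m 1 = d
  · have hlt : m 0 < d + 1 := by omega
    rw [Finset.sum_eq_single (⟨m 0, hlt⟩ : Fin (d + 1))]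
    · have e : (Finsupp.single 0 (m 0) + Finsupp.single 1 (d - m 0) : Fin 2 →₀ ℕ) = m := by
        ext i
        fin_cases i
        · simp
        · simp; omega
      rw [if_pos e, mul_one]
      show coeff (Finsupp.single 0 (m 0) + Finsupp.single 1 (d - m 0)) G = _
      rw [e]
    · intro j _ hj
      rw [if_neg, mul_zero]
      intro h
      apply hj
      have := congrArg (fun s : Fin 2 →₀ ℕ => s 0) h
      simp at this
      exact Fin.ext this
    · intro h
      exact absurd (Finset.mem_univ _) h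
  · have h0 : coeff m G = 0 := by
      by_contra hne
      have h1 := hG hne
      rw [← h1] at hm
      apply hm
      rw [Finsupp.weight_apply, Finsupp.sum_fintype _ _ (by simp)]
      simp [Fin.sum_univ_two]
    rw [h0]
    refine Finset.sum_eq_zero fun j _ => ?_
    rw [if_neg, mul_zero]
    rintro rfl
    apply hm
    have := j.2
    simp
    omega

lemma form_conjVec {d : ℕ} (φ : Matrix (Fin 2) (Fin 2) Qbar)
    (c : Fin 2 × Fin (d + 1) → Qbar) (i : Fin 2) : form (conjVec φ c) i = conjForm φ c i := by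
  have h := sum_coeff (conjForm_homog φ c i)
  rw [form]
  simp only [conjVec]
  exact h

lemma eval_conjForm {d : ℕ} (φ : Matrix (Fin 2) (Fin 2) Qbar)
    (c : Fin 2 × Fin (d + 1) → Qbar) (x : Fin 2 → Qbar) :
    (fun i => eval x (conjForm φ c i)) =
      φ.adjugate.mulVec fun l => eval (φ.mulVec x) (form c l) := by
  funext i
  rw [conjForm, map_sum]
  simp only [map_mul, eval_C, Matrix.mulVec, dotProduct]
  refine Finset.sum_congr rfl fun l _ => ?_
  congr 1
  have h1 : eval x (bind₁ (fun k => ∑ m, C (φ k m) * X m) (form c l)) =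
      aeval x (aeval (fun k => ∑ m, C (φ k m) * X m : Fin 2 → MvPolynomial (Fin 2) Qbar)
        (form c l)) := rfl
  rw [h1, comp_aeval_apply]
  show aeval _ _ = aeval _ _
  congr 2
  funext k
  simp [Matrix.mulVec, dotProduct]

lemma form_smul {d : ℕ} (a : Qbar) (c : Fin 2 × Fin (d + 1) → Qbar) (i : Fin 2) :
    form (a • c) i = C a * form c i := by
  rw [form, form, Finset.mul_sum]
  refine Finset.sum_congr rfl fun j _ => ?_
  rw [Pi.smul_apply, smul_eq_mul, C_mul]
  ring

/-- no common zeros, for a coefficient vector -/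
def NoZero {d : ℕ} (c : Fin 2 × Fin (d + 1) → Qbar) : Prop :=
  ∀ x : Fin 2 → Qbar, (∀ i, eval x (form c i) = 0) → x = 0

lemma noZero_smul {d : ℕ} {a : Qbar} (ha : a ≠ 0) (c : Fin 2 × Fin (d + 1) → Qbar) :
    NoZero (a • c) ↔ NoZero c := by
  simp only [NoZero, form_smul, map_mul, eval_C, mul_eq_zero, ha, false_or]

lemma NoZero.ne_zero {d : ℕ} {c : Fin 2 × Fin (d + 1) → Qbar} (h : NoZero c) : c ≠ 0 := by
  rintro rfl
  have h1 := h ![1, 0] fun i => by simp [form]
  have := congrFun h1 0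
  simp at this

lemma mk_mem_Rat {d : ℕ} {c : Fin 2 × Fin (d + 1) → Qbar} (h : c ≠ 0) :
    Projectivization.mk Qbar c h ∈ Rat d ↔ NoZero c := by
  obtain ⟨a, ha⟩ := Projectivization.exists_smul_eq_mk_rep Qbar c h
  show NoZero (Projectivization.mk Qbar c h).rep ↔ _
  rw [← ha]
  exact noZero_smul a.ne_zero c

lemma NoZero.conj {d : ℕ} {c : Fin 2 × Fin (d + 1) → Qbar} (h : NoZero c)
    (φ : GL (Fin 2) Qbar) : NoZero (conjVec (φ : Matrix (Fin 2) (Fin 2) Qbar) c) := by
  intro x hx
  simp only [form_conjVec] at hx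
  have h1 : (fun i => eval x (conjForm (φ : Matrix (Fin 2) (Fin 2) Qbar) c i)) = 0 := funext hx
  rw [eval_conjForm] at h1
  have hdet : IsUnit (φ : Matrix (Fin 2) (Fin 2) Qbar).det :=
    (Matrix.isUnit_iff_isUnit_det _).mp φ.isUnit
  have hadj : IsUnit (φ : Matrix (Fin 2) (Fin 2) Qbar).adjugate := by
    rw [Matrix.isUnit_iff_isUnit_det, Matrix.det_adjugate]
    exact hdet.pow _
  have h2 : (fun l => eval ((φ : Matrix (Fin 2) (Fin 2) Qbar).mulVec x) (form c l)) = 0 :=
    (Matrix.mulVec_injective_iff_isUnit.mpr hadj) (by rw [h1, Matrix.mulVec_zero])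
  have h3 := h _ (fun i => congrFun h2 i)
  exact (Matrix.mulVec_injective_iff_isUnit.mpr φ.isUnit) (by rw [h3, Matrix.mulVec_zero])

/-- The conjugate `f^φ = φ⁻¹ ∘ f ∘ φ` of the rational map `f`. -/
noncomputable def conj {d : ℕ} (φ : GL (Fin 2) Qbar) (f : Rat d) : Rat d :=
  ⟨Projectivization.mk Qbar (conjVec (φ : Matrix (Fin 2) (Fin 2) Qbar)
      (f : PSp (Fin 2 × Fin (d + 1))).rep) (NoZero.conj f.2 φ).ne_zero,
    (mk_mem_Rat _).mpr (NoZero.conj f.2 φ)⟩

end Pool.Agent.N890.MH
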