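import Mathlib
import Pool.Agent.N890.MH.Geo
import Pool.Agent.N890.MH.RatDefs

/-!
# The space of rational maps of degree `d` is constructible
-/

set_option autoImplicit false

namespace Pool.Agent.N890.MH

open MvPolynomial Pool.Agent.Helper259.AbsHt

theorem cons_cone_Rat (d : ℕ) : Cons (cone (Rat d)) := by
  -- pairs of a point and a coefficient vector
  let κ := Option (Option (Fin 2 × Fin (d + 1)))
  let P : Fin 2 → MvPolynomial κ Qbar := fun i => ∑ j : Fin (d + 1),
    X (some (some (i, j))) * (X none ^ (j : ℕ) * X (some none) ^ (d - j))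
  have hP : ∀ (a b : Qbar) (c : Fin 2 × Fin (d + 1) → Qbar) (i : Fin 2),
      eval (cns a (cns b c)) (P i) = eval ![a, b] (form c i) := by
    intro a b c i
    simp only [P, form, map_sum, map_mul, map_pow, eval_X, eval_C, cns]
    rfl
  let W : Set (κ → Qbar) := ({z | eval z (X none) ≠ 0} ∪ {z | eval z (X (some none)) ≠ 0}) ∩
    ⋂ i : Fin 2, {z | eval z (P i) = 0}
  have hW : Cons W := ((cons_ne _).union (cons_ne _)).inter (cons_iInter fun i => cons_zero _)
  have h1 := hW.proj.proj.compl.inter (cons_nonzero (ι := Fin 2 × Fin (d + 1)))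
  convert h1 using 1
  ext c
  simp only [cone, Set.mem_ofPred_eq, Set.mem_inter_iff, Set.mem_compl_iff, not_exists]
  constructor
  · rintro ⟨h, hc⟩
    rw [mk_mem_Rat] at hc
    refine ⟨fun b a hab => ?_, h⟩
    obtain ⟨hne, hz⟩ := hab
    have h2 := hc ![a, b] (fun i => by
      rw [← hP]
      exact Set.mem_iInter.mp hz i)
    rcases hne with hne | hne
    · apply hne
      rw [eval_X]
      exact congrFun h2 0
    · apply hne
      rw [eval_X]
      exact congrFun h2 1
  · rintro ⟨h, hc⟩
    refine ⟨hc, (mk_mem_Rat hc).mpr fun x hx => ?_⟩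
    by_contra hx0
    apply h (x 1) (x 0)
    have e : x = ![x 0, x 1] := by
      funext i
      fin_cases i <;> rfl
    refine ⟨?_, Set.mem_iInter.mpr fun i => ?_⟩
    · by_cases h0 : x 0 = 0
      · right
        rw [Set.mem_ofPred_eq, eval_X]
        intro h1
        apply hx0
        rw [e]
        funext i
        fin_cases i
        · exact h0
        · exact h1
      · left
        rw [Set.mem_ofPred_eq, eval_X]
        exact h0
    · rw [Set.mem_ofPred_eq, hP, ← e]
      exact hx i

end Pool.Agent.N890.MH
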